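import Pool.Agent.ABY.Stmts

/-!
# Squad ABY, row VST: the start of a stage
-/

set_option autoImplicit false

open scoped BigOperators Matrix

noncomputable section

namespace Pool.Agent.ABY.H44

open Pool.Agent.LE.QF Pool.Agent.AFJ Pool.Agent.ABY

variable {X : Type} [Fintype X] [DecidableEq X]

theorem vir_zero {𝕜 : Type} [RCLike 𝕜] (M : Matrix X X 𝕜) (w : X → ℝ) (a : X) :
    vir M 0 w a = ∑ b, M a b * ((w b : ℝ) : 𝕜) := by
  have h1 : dg 𝕜 (0 : X → ℝ) = 0 := by
    unfold dg
    ext x y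
    rw [Matrix.diagonal_apply]
    simp
  unfold vir TT
  rw [h1, Matrix.mul_zero, sub_zero, inv_one, Matrix.one_mulVec]
  rfl

omit [Fintype X] [DecidableEq X] in
theorem nBK (G : Matrix X X ℂ) (a b : X) : ‖BB G a b‖ = KK G a b := by
  unfold BB KK
  rw [norm_pow]

omit [DecidableEq X] in
theorem eqn {𝕜 : Type} [RCLike 𝕜] (M : Matrix X X 𝕜) (P w w' : X → ℝ) (be : X → 𝕜)
    (hv : ∀ a, be a = ∑ b, M a b * psi P w be b) (hw : ∀ b, w b = w' b / 2) (a : X) :
    be a - ∑ b, M a b * (((P b : ℝ) : 𝕜) * be b) = (∑ b, M a b * ((w' b : ℝ) : 𝕜)) / 2 := by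
  conv_lhs => rw [hv a]
  rw [← Finset.sum_sub_distrib, Finset.sum_div]
  refine Finset.sum_congr rfl fun b _ => ?_
  unfold psi
  rw [hw b]
  push_cast
  ring

theorem vst_ : VstStmt := by
  intro hC hV X _ _ G g R s e θ hs he he1 hθ hg hK hY
  have hKK : ∀ a b, 0 ≤ KK G a b := fun a b => by
    unfold KK; positivity
  have hind : ∀ x, 0 ≤ ind R x := fun x => by
    unfold ind; split_ifs <;> norm_num
  have hsum0 : ∀ a, ∑ b, KK G a b * (ind R b * (s * g b)) = ∑ b ∈ R, KK G a b * (s * g b) := by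
    intro a
    have e8 : ∀ b, KK G a b * (ind R b * (s * g b)) =
        if b ∈ R then KK G a b * (s * g b) else 0 := by
      intro b
      unfold ind
      split_ifs
      · ring
      · ring
    rw [Finset.sum_congr rfl (fun b _ => e8 b), Finset.sum_ite_mem, Finset.univ_inter]
  have hsum : ∀ a, ∑ b, KK G a b * (ind R b * (s / 2)) * g b =
      (∑ b, KK G a b * (ind R b * (s * g b))) / 2 := by
    intro a
    rw [Finset.sum_div]
    refine Finset.sum_congr rfl fun b _ => ?_
    ring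
  have hK0 : ∀ a ∈ R, ∑ b, KK G a b * (ind R b * (s * g b)) ≤ (1 + e) * g a := by
    intro a ha
    rw [hsum0]
    exact hK a ha
  have hKg : ∀ a ∈ R, ∑ b, KK G a b * (ind R b * (s / 2)) * g b ≤ (1 + e) / 2 * g a := by
    intro a ha
    rw [hsum]
    have := hK0 a ha
    linarith
  have hP : (∀ x, 0 ≤ ind R x * (s / 2)) ∧ ∀ x, x ∉ R → ind R x * (s / 2) = 0 := by
    refine ⟨fun x => mul_nonneg (hind x) (by linarith), fun x hx => ?_⟩
    unfold ind
    rw [if_neg hx, zero_mul]
  have c1 : Cmp (BB G) (KK G) (fun x => ind R x * (s / 2)) g R R ((1 + e) / 2) :=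
    ⟨fun a b => (nBK G a b).le, hP, le_rfl, hg, ⟨by linarith, by linarith⟩, hKg⟩
  have c2 : Cmp (KK G) (KK G) (fun x => ind R x * (s / 2)) g R R ((1 + e) / 2) :=
    ⟨fun a b => by rw [Real.norm_of_nonneg (hKK a b)], hP, le_rfl, hg,
      ⟨by linarith, by linarith⟩, hKg⟩
  obtain ⟨_, v1', _⟩ := hV hC ℂ X (BB G) (KK G) _ g R R _ c1
  obtain ⟨_, v2', _⟩ := hV hC ℝ X (KK G) (KK G) _ g R R _ c2
  have v1 := v1' (fun x => ind R x * (s / 2 * g x))
  have v2 := v2' (fun x => ind R x * (s / 2 * g x))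
  clear v1' v2'
  have key := (hC ℂ X (BB G) (KK G) _ g R R _ c1).2
    (vir (BB G) (fun x => ind R x * (s / 2)) (fun x => ind R x * (s / 2 * g x)))
    (fun a => (1 + θ) / (1 - e) * g a -
      vir (KK G) (fun x => ind R x * (s / 2)) (fun x => ind R x * (s / 2 * g x)) a)
  generalize hbe : vir (BB G) (fun x => ind R x * (s / 2))
    (fun x => ind R x * (s / 2 * g x)) = be at *
  generalize hq : vir (KK G) (fun x => ind R x * (s / 2))
    (fun x => ind R x * (s / 2 * g x)) = q at *
  have hw : ∀ b, ind R b * (s / 2 * g b) = (ind R b * (s * g b)) / 2 := fun b => by ring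
  have w1 := eqn (BB G) (fun x => ind R x * (s / 2)) (fun x => ind R x * (s / 2 * g x))
    (fun x => ind R x * (s * g x)) be v1 hw
  have w2 := eqn (KK G) (fun x => ind R x * (s / 2)) (fun x => ind R x * (s / 2 * g x))
    (fun x => ind R x * (s * g x)) q v2 hw
  simp only [RCLike.ofReal_real_eq_id, id_eq] at w2
  have key2 := key (by
    intro a ha
    have b0 := hY a ha
    rw [vir_zero, vir_zero] at b0
    simp only [RCLike.ofReal_real_eq_id, id_eq] at b0
    have e2 := w2 a
    refine (congrArg norm (w1 a)).trans_le ?_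
    rw [norm_div]
    have e0 : ‖(2 : ℂ)‖ = 2 := by norm_num
    rw [e0]
    have e5 : ∑ b, KK G a b * ((ind R b * (s / 2)) * ((1 + θ) / (1 - e) * g b - q b)) =
        (1 + θ) / (1 - e) * ((∑ b, KK G a b * (ind R b * (s * g b))) / 2) -
          ∑ b, KK G a b * ((ind R b * (s / 2)) * q b) := by
      rw [Finset.sum_div, Finset.mul_sum, ← Finset.sum_sub_distrib]
      refine Finset.sum_congr rfl fun b _ => ?_
      ring
    rw [e5]
    have e9 := hK0 a ha
    have e10 : 0 < 1 - e := by linarith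
    have e11 : (1 + θ) / (1 - e) * (g a * (1 - e) / 2) ≤
        (1 + θ) / (1 - e) * (g a - (∑ b, KK G a b * (ind R b * (s * g b))) / 2) := by
      apply mul_le_mul_of_nonneg_left _ (by positivity)
      linarith
    have e12 : (1 + θ) / (1 - e) * (g a * (1 - e) / 2) = (1 + θ) * g a / 2 := by
      field_simp
    rw [e12] at e11
    rw [mul_sub] at e11
    linarith)
  intro a ha
  have key3 := key2 a ha
  have e1 : 1 + ((1 + θ) / (1 - e) - 1) = (1 + θ) / (1 - e) := by ring
  have key4 : ‖be a‖ ≤ (1 + θ) / (1 - e) * g a - q a := key3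
  rw [e1, hbe, hq]
  linarith

end Pool.Agent.ABY.H44
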